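import Mathlib

/-!
A `T₀` space with a base of subinfinite rank (in fact a base totally ordered by inclusion) that is
not metacompact.
-/

open Set TopologicalSpace

namespace Pool.Agent.Results.MP_03f7b8_gt.InitialSegments

/-- No two distinct members are comparable by inclusion. -/
def Incomparable {X : Type} (G : Set (Set X)) : Prop :=
  ∀ A ∈ G, ∀ B ∈ G, A ≠ B → ¬ A ⊆ B ∧ ¬ B ⊆ A

/-- Every incomparable subfamily with nonempty intersection is finite. -/
def SubinfiniteRank {X : Type} (G : Set (Set X)) : Prop :=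
  ∀ G' : Set (Set X), G' ⊆ G → Incomparable G' → (⋂₀ G').Nonempty → G'.Finite

/-- Every open cover has a point-finite open refinement. -/
def Metacompact (X : Type) [TopologicalSpace X] : Prop :=
  ∀ U : Set (Set X), (∀ A ∈ U, IsOpen A) → ⋃₀ U = univ →
    ∃ V : Set (Set X), (∀ A ∈ V, IsOpen A ∧ ∃ C ∈ U, A ⊆ C) ∧ ⋃₀ V = univ ∧
      ∀ x : X, {A ∈ V | x ∈ A}.Finite

theorem result : ∃ (X : Type) (_ : TopologicalSpace X), T0Space X ∧
    (∃ B : Set (Set X), IsTopologicalBasis B ∧ SubinfiniteRank B) ∧ ¬ Metacompact X := by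
  let t : TopologicalSpace ℕ := Topology.lowerSet ℕ
  have hopen : ∀ s : Set ℕ, IsOpen s ↔ IsLowerSet s := fun s => Iff.rfl
  have hIic : ∀ n : ℕ, IsOpen (Iic n) := fun n => (hopen _).2 (isLowerSet_Iic n)
  refine ⟨ℕ, t, ?_, ⟨Set.range (fun n : ℕ => Iic n), ?_, ?_⟩, ?_⟩
  · refine ⟨fun x y hxy => ?_⟩
    have h1 : x ∈ Iic y := (hxy.mem_open_iff (hIic y)).2 (le_refl y)
    have h2 : y ∈ Iic x := (hxy.mem_open_iff (hIic x)).1 (le_refl x)
    exact le_antisymm h1 h2
  · refine isTopologicalBasis_of_isOpen_of_nhds ?_ ?_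
    · rintro _ ⟨n, rfl⟩
      exact hIic n
    · intro a u ha hu
      exact ⟨Iic a, ⟨a, rfl⟩, le_refl a, fun b hb => (hopen _).1 hu hb ha⟩
  · intro G' hG' hinc _
    refine Set.Subsingleton.finite ?_
    intro A hA B hB
    by_contra hne
    obtain ⟨m, hm⟩ := hG' hA
    obtain ⟨n, hn⟩ := hG' hB
    have h := hinc A hA B hB hne
    rcases le_total m n with hmn | hmn
    · apply h.1
      rw [← hm, ← hn]
      exact Iic_subset_Iic.2 hmn
    · apply h.2
      rw [← hm, ← hn]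
      exact Iic_subset_Iic.2 hmn
  · intro hmc
    obtain ⟨V, hV, hVc, hVf⟩ := hmc (Set.range (fun n : ℕ => Iic n))
      (by rintro _ ⟨n, rfl⟩; exact hIic n)
      (by
        ext x
        simp only [mem_sUnion, mem_univ, iff_true]
        exact ⟨Iic x, ⟨x, rfl⟩, le_refl x⟩)
    have hfin : (⋃₀ {A ∈ V | 0 ∈ A}).Finite := by
      refine Set.Finite.sUnion (hVf 0) ?_
      rintro A ⟨hA, -⟩
      obtain ⟨-, C, ⟨n, rfl⟩, hAC⟩ := hV A hA
      exact (Set.finite_Iic n).subset hAC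
    have huniv : (univ : Set ℕ) ⊆ ⋃₀ {A ∈ V | 0 ∈ A} := by
      intro x _
      have hx : x ∈ ⋃₀ V := by rw [hVc]; trivial
      obtain ⟨A, hA, hxA⟩ := hx
      exact ⟨A, ⟨hA, (hopen _).1 (hV A hA).1 (Nat.zero_le x) hxA⟩, hxA⟩
    exact Set.infinite_univ (hfin.subset huniv)

end Pool.Agent.Results.MP_03f7b8_gt.InitialSegments
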